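import Pool.Agent.V11212.XI.Poset

set_option autoImplicit false

namespace Pool.Agent.Results.MP_28f43d_co.AllGaps

open Pool.Agent.V11212.XI

/-- Every pair `1 ≤ m < n` is the pair (index of the order complex, cross-index) of some finite
free `G`-poset, for every nontrivial finite group `G`. -/
theorem result (G : Type) [Group G] [Fintype G] [Nontrivial G] (m n : ℕ) (hm : 1 ≤ m)
    (hmn : m < n) :
    ∃ (P : Type) (_ : Fintype P) (_ : PartialOrder P) (_ : MulAction G P),
      (∀ (g : G) (p q : P), p ≤ q → g • p ≤ g • q) ∧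
      (∀ (g : G) (p : P), g • p = p → g = 1) ∧
      IsLeast {k | TopLe G (orderC P) k} m ∧
      IsLeast {k | CrossLe G P k} n := by
  obtain ⟨d, rfl⟩ : ∃ d, n = m + d := ⟨n - m, by omega⟩
  obtain ⟨P, i1, i2, i3, h⟩ := goodP_all G m d hm
  exact ⟨P, i1, i2, i3, h.mono, h.free, ⟨h.top, fun k hk => h.topl k hk⟩,
    ⟨h.cross, fun k hk => h.simpl k (CrossLe.simpLe hk)⟩⟩

end Pool.Agent.Results.MP_28f43d_co.AllGaps
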